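import Pool.Agent.N549.AB.Stm5

set_option autoImplicit false

/-!
# The window for binary codes is not empty (AB/ENTQ)
-/

namespace Pool.Agent.N327.DC

open Real Set

/-- the difference of the entropy and its parabola -/
noncomputable def K (p : ℝ) : ℝ := binEntropy p - 4 * log 2 * (p * (1 - p))

noncomputable def K1 (p : ℝ) : ℝ := log (1 - p) - log p - 4 * log 2 * (1 - 2 * p)

lemma hasDeriv_K (p : ℝ) (h0 : p ≠ 0) (h1 : p ≠ 1) : HasDerivAt K (K1 p) p := by
  have h2 := hasDerivAt_binEntropy h0 h1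
  have h3 : HasDerivAt (fun p : ℝ => 4 * log 2 * (p * (1 - p))) (4 * log 2 * (1 - 2 * p)) p := by
    have h4 : HasDerivAt (fun p : ℝ => p * (1 - p)) (1 * (1 - p) + p * (0 - 1)) p :=
      (hasDerivAt_id p).mul ((hasDerivAt_const p 1).sub (hasDerivAt_id p))
    have h5 : HasDerivAt (fun p : ℝ => 4 * log 2 * (p * (1 - p)))
        (4 * log 2 * (1 * (1 - p) + p * (0 - 1))) p := h4.const_mul (4 * log 2)
    have h6 : 4 * log 2 * (1 * (1 - p) + p * (0 - 1)) = 4 * log 2 * (1 - 2 * p) := by ring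
    rw [h6] at h5
    exact h5
  exact h2.sub h3

lemma hasDeriv_K1 (p : ℝ) (h0 : 0 < p) (h1 : p < 1) :
    HasDerivAt K1 (8 * log 2 - 1 / (p * (1 - p))) p := by
  have h6 : 1 - p ≠ 0 := by linarith
  have h7 : HasDerivAt (fun p : ℝ => 1 - p) (0 - 1) p :=
    (hasDerivAt_const p 1).sub (hasDerivAt_id p)
  have h2 : HasDerivAt (fun p : ℝ => log (1 - p)) ((0 - 1) / (1 - p)) p := h7.log h6
  have h3 : HasDerivAt (fun p : ℝ => log p) (p⁻¹) p := hasDerivAt_log h0.ne'
  have h4 : HasDerivAt (fun p : ℝ => 4 * log 2 * (1 - 2 * p)) (4 * log 2 * (0 - 2 * 1)) p :=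
    ((hasDerivAt_const p 1).sub ((hasDerivAt_id p).const_mul 2)).const_mul (4 * log 2)
  have h5 : HasDerivAt K1 ((0 - 1) / (1 - p) - p⁻¹ - 4 * log 2 * (0 - 2 * 1)) p := (h2.sub h3).sub h4
  have h8 : (0 - 1) / (1 - p) - p⁻¹ - 4 * log 2 * (0 - 2 * 1) = 8 * log 2 - 1 / (p * (1 - p)) := by
    field_simp
    ring
  rw [h8] at h5
  exact h5

lemma cont_K : Continuous K := by
  unfold K
  fun_prop

lemma K_half : K (1 / 2) = 0 := by
  unfold K
  rw [one_div, binEntropy_two_inv]
  ring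

lemma K1_half : K1 (1 / 2) = 0 := by
  unfold K1
  norm_num

lemma K_zero : K 0 = 0 := by
  unfold K
  rw [binEntropy_zero]
  ring

theorem K_pos (p : ℝ) (h0 : 0 < p) (h1 : p < 1 / 2) : 0 < K p := by
  have hl : 1 / 2 < log 2 := by
    have := log_two_gt_d9
    linarith
  have hl0 : 0 < log 2 := by linarith
  obtain ⟨D, hD⟩ : ∃ D, D = 1 / 4 - 1 / (8 * log 2) := ⟨_, rfl⟩
  have hinv : 1 / (8 * log 2) < 1 / 4 := by
    rw [div_lt_div_iff₀ (by positivity) (by norm_num)]
    linarith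
  have hinv0 : 0 < 1 / (8 * log 2) := by positivity
  have hD0 : 0 < D := by rw [hD]; linarith
  have hD1 : D < 1 / 4 := by rw [hD]; linarith
  obtain ⟨q, hq⟩ : ∃ q, q = 1 / 2 - √D := ⟨_, rfl⟩
  have hs0 : 0 < √D := sqrt_pos.2 hD0
  have hss : √D * √D = D := mul_self_sqrt hD0.le
  have hs1 : √D < 1 / 2 := by nlinarith
  have hq0 : 0 < q := by rw [hq]; linarith
  have hq1 : q < 1 / 2 := by rw [hq]; linarith
  have hqq : q * (1 - q) = 1 / (8 * log 2) := by
    have : q * (1 - q) = 1 / 4 - √D * √D := by rw [hq]; ring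
    rw [this, hss, hD]
    ring
  -- right part
  have hmono : StrictMonoOn K1 (Icc q (1 / 2)) := by
    apply strictMonoOn_of_deriv_pos (convex_Icc _ _)
    · intro x hx
      exact (hasDeriv_K1 x (by linarith [hx.1]) (by linarith [hx.2])).continuousAt.continuousWithinAt
    · intro x hx
      rw [interior_Icc] at hx
      rw [(hasDeriv_K1 x (by linarith [hx.1]) (by linarith [hx.2])).deriv, sub_pos]
      have h2 : 1 / (8 * log 2) < x * (1 - x) := by
        rw [← hqq]
        nlinarith [hx.1, hx.2]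
      have h3 : 0 < x * (1 - x) := by linarith
      rw [div_lt_iff₀ h3]
      rw [div_lt_iff₀ (by positivity)] at h2
      linarith
  have hright : ∀ x, q ≤ x → x < 1 / 2 → 0 < K x := by
    have hanti : StrictAntiOn K (Icc q (1 / 2)) := by
      apply strictAntiOn_of_deriv_neg (convex_Icc _ _) cont_K.continuousOn
      intro x hx
      rw [interior_Icc] at hx
      rw [(hasDeriv_K x (by linarith [hx.1]) (by linarith [hx.2])).deriv, ← K1_half]
      exact hmono ⟨hx.1.le, hx.2.le⟩ ⟨hq1.le, le_rfl⟩ hx.2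
    intro x hx1 hx2
    rw [← K_half]
    exact hanti ⟨hx1, hx2.le⟩ ⟨hq1.le, le_rfl⟩ hx2
  rcases le_or_gt q p with h | h
  · exact hright p h h1
  · -- left part
    have hanti1 : StrictAntiOn K1 (Ioo 0 q) := by
      apply strictAntiOn_of_deriv_neg (convex_Ioo _ _)
      · intro x hx
        exact (hasDeriv_K1 x hx.1 (by linarith [hx.2])).continuousAt.continuousWithinAt
      · intro x hx
        rw [interior_Ioo] at hx
        rw [(hasDeriv_K1 x hx.1 (by linarith [hx.2])).deriv, sub_neg]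
        have h3 : 0 < x * (1 - x) := mul_pos hx.1 (by linarith [hx.2])
        have h2 : x * (1 - x) < 1 / (8 * log 2) := by
          rw [← hqq]
          nlinarith [hx.1, hx.2]
        rw [lt_div_iff₀ h3]
        rw [lt_div_iff₀ (by positivity)] at h2
        linarith
    have hconc : StrictConcaveOn ℝ (Icc 0 q) K := by
      apply StrictAntiOn.strictConcaveOn_of_deriv (convex_Icc _ _) cont_K.continuousOn
      rw [interior_Icc]
      intro x hx y hy hxy
      rw [(hasDeriv_K x hx.1.ne' (by linarith [hx.2])).deriv,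
        (hasDeriv_K y hy.1.ne' (by linarith [hy.2])).deriv]
      exact hanti1 hx hy hxy
    have hKq : 0 < K q := hright q le_rfl hq1
    have h5 := hconc.2 (show (0 : ℝ) ∈ Icc 0 q from ⟨le_rfl, hq0.le⟩)
      (show q ∈ Icc 0 q from ⟨hq0.le, le_rfl⟩) hq0.ne
      (show 0 < 1 - p / q by rw [sub_pos, div_lt_one hq0]; exact h)
      (show 0 < p / q by positivity) (by ring)
    simp only [smul_eq_mul, mul_zero, zero_add, K_zero] at h5
    rw [div_mul_cancel₀ _ hq0.ne'] at h5
    have : 0 < p / q * K q := by positivity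
    linarith

theorem entq : Pool.Agent.N549.AB.S_ENTQ := by
  intro d h0 h1
  have hd : 0 < d * (1 - d) := mul_pos h0 (by linarith)
  have hd1 : d * (1 - d) < 1 / 4 := by nlinarith [sq_nonneg (1 / 2 - d), mul_pos (sub_pos.2 h1) (sub_pos.2 h1)]
  obtain ⟨s, hs⟩ : ∃ s, s = √(d * (1 - d)) := ⟨_, rfl⟩
  rw [← hs]
  have hs0 : 0 < s := by rw [hs]; exact sqrt_pos.2 hd
  have hss : s * s = d * (1 - d) := by rw [hs]; exact mul_self_sqrt hd.le
  have hs1 : s < 1 / 2 := by nlinarith
  have h2 := K_pos d h0 h1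
  have h3 := K_pos (1 / 2 - s) (by linarith) (by linarith)
  unfold K at h2 h3
  have h4 : (1 / 2 - s) * (1 - (1 / 2 - s)) = 1 / 4 - d * (1 - d) := by
    rw [← hss]; ring
  rw [h4] at h3
  have h5 : 4 * log 2 * (1 / 4 - d * (1 - d)) = log 2 - 4 * log 2 * (d * (1 - d)) := by ring
  rw [h5] at h3
  linarith

end Pool.Agent.N327.DC
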